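import Pool.Agent.T9h39.PZ.Spec

/-!
# PZ, piece (L): the choice of `L`
-/

set_option autoImplicit false

namespace Pool.Agent.T9h95.PZ

open Pool.Agent.T9h39.PZ

theorem two_mul_pow_le (h : ℕ) (hh : 1 ≤ h) : 2 * h ^ h ≤ (h + 1) ^ h := by
  have h0 : (0 : ℝ) < h := by exact_mod_cast hh
  have h1 := one_add_mul_le_pow (a := (1 : ℝ) / h) (by
    have : (0 : ℝ) ≤ 1 / h := by positivity
    linarith) h
  have h2 : (h : ℝ) * (1 / h) = 1 := by field_simp
  rw [h2] at h1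
  have h3 : ((1 : ℝ) + 1 / h) ^ h * (h : ℝ) ^ h = ((h : ℝ) + 1) ^ h := by
    rw [← mul_pow]
    congr 1
    field_simp
  have h4 : (2 : ℝ) * (h : ℝ) ^ h ≤ ((h : ℝ) + 1) ^ h := by
    rw [← h3]
    have h5 : (0 : ℝ) ≤ (h : ℝ) ^ h := by positivity
    nlinarith
  exact_mod_cast h4

theorem pow_self_le (j : ℕ) (hj : 1 ≤ j) (n : ℕ) :
    j ^ (j * (j + n - 1)) ≤ (j + n) ^ ((j + n) * (j - 1)) := by
  induction n with
  | zero => simp
  | succ n ih =>
    obtain ⟨h, hh⟩ : ∃ h, h = j + n := ⟨_, rfl⟩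
    rw [← hh] at ih
    have hjh : j ≤ h := by omega
    have hh1 : 1 ≤ h := by omega
    have e1 : j + (n + 1) = h + 1 := by omega
    rw [e1, Nat.add_sub_cancel]
    have e2 : j * h = j * (h - 1) + j := by
      obtain ⟨c, rfl⟩ : ∃ c, h = c + 1 := ⟨h - 1, by omega⟩
      rw [Nat.add_sub_cancel]
      ring
    have e3 : (h + 1) * (j - 1) = h * (j - 1) + (j - 1) := by ring
    have h1 : j ^ j ≤ (2 * (h + 1)) ^ (j - 1) := by
      have h2 : j ≤ 2 ^ (j - 1) := by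
        have := Nat.lt_two_pow_self (n := j - 1)
        omega
      calc j ^ j = j * j ^ (j - 1) := by
            conv_lhs => rw [show j = (j - 1) + 1 by omega]
            rw [pow_succ, Nat.sub_add_cancel hj, mul_comm]
        _ ≤ 2 ^ (j - 1) * (h + 1) ^ (j - 1) :=
            Nat.mul_le_mul h2 (Nat.pow_le_pow_left (by omega) _)
        _ = (2 * (h + 1)) ^ (j - 1) := by rw [mul_pow]
    calc j ^ (j * h) = j ^ (j * (h - 1)) * j ^ j := by rw [e2, pow_add]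
      _ ≤ h ^ (h * (j - 1)) * (2 * (h + 1)) ^ (j - 1) := Nat.mul_le_mul ih h1
      _ = (2 * h ^ h) ^ (j - 1) * (h + 1) ^ (j - 1) := by
          rw [mul_pow, mul_pow, ← pow_mul]
          ring
      _ ≤ ((h + 1) ^ h) ^ (j - 1) * (h + 1) ^ (j - 1) :=
          Nat.mul_le_mul_right _ (Nat.pow_le_pow_left (two_mul_pow_le h hh1) _)
      _ = (h + 1) ^ ((h + 1) * (j - 1)) := by
          rw [e3, pow_add, pow_mul]

/-- **Piece (L)** -/
theorem exL : S_L := by
  intro k m hk hm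
  obtain ⟨a, rfl⟩ : ∃ a, k = a + 2 := ⟨k - 2, by omega⟩
  have e1 : a + 2 - 1 = a + 1 := by omega
  have e2 : a + 2 - 2 = a := by omega
  rw [e1, e2]
  rcases Nat.eq_zero_or_pos a with rfl | ha
  · refine ⟨1, ⟨le_rfl, ?_⟩, by simp, by simp⟩
    intro j hj1 hj2
    have : j = 1 := by omega
    subst this
    simp
  have hex : ∃ L : ℕ, (a + 1) ^ ((a + 1) * m) ≤ L ^ a :=
    ⟨(a + 1) ^ ((a + 1) * m), Nat.le_self_pow (by omega) _⟩
  classical
  set L := Nat.find hex with hL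
  have hL1 : (a + 1) ^ ((a + 1) * m) ≤ L ^ a := Nat.find_spec hex
  have hbig : 2 ≤ (a + 1) ^ ((a + 1) * m) := by
    calc 2 ≤ a + 1 := by omega
      _ ≤ (a + 1) ^ ((a + 1) * m) := Nat.le_self_pow (by positivity) _
  have hL2 : 2 ≤ L := by
    by_contra h
    have h1 : L ^ a ≤ 1 ^ a := Nat.pow_le_pow_left (by omega) _
    rw [one_pow] at h1
    omega
  have hL3 : (L - 1) ^ a < (a + 1) ^ ((a + 1) * m) := by
    have := Nat.find_min hex (m := L - 1) (by omega)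
    omega
  refine ⟨L, ⟨by omega, ?_⟩, ?_, ?_⟩
  · intro j hj1 hj2
    rw [e1] at hj2
    rw [← Nat.pow_le_pow_iff_left (n := a) (by omega)]
    have h1 := pow_self_le j hj1 (a + 1 - j)
    rw [show j + (a + 1 - j) = a + 1 by omega, Nat.add_sub_cancel] at h1
    calc (j ^ (j * m)) ^ a = (j ^ (j * a)) ^ m := by rw [← pow_mul, ← pow_mul]; ring_nf
      _ ≤ ((a + 1) ^ ((a + 1) * (j - 1))) ^ m := Nat.pow_le_pow_left h1 _
      _ = ((a + 1) ^ ((a + 1) * m)) ^ (j - 1) := by rw [← pow_mul, ← pow_mul]; ring_nf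
      _ ≤ (L ^ a) ^ (j - 1) := Nat.pow_le_pow_left hL1 _
      _ = (L ^ (j - 1)) ^ a := by rw [← pow_mul, ← pow_mul, mul_comm]
  · calc L ^ a ≤ (2 * (L - 1)) ^ a := Nat.pow_le_pow_left (by omega) _
      _ = 2 ^ a * (L - 1) ^ a := by rw [mul_pow]
      _ ≤ 2 ^ a * (a + 1) ^ ((a + 1) * m) := Nat.mul_le_mul_left _ hL3.le
  · have h1 : L - 1 < (a + 1) ^ (2 * m) := by
      rw [← Nat.pow_lt_pow_iff_left (n := a) (by omega)]
      refine lt_of_lt_of_le hL3 ?_
      rw [← pow_mul]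
      refine Nat.pow_le_pow_right (by omega) ?_
      nlinarith
    omega

end Pool.Agent.T9h95.PZ
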