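import Pool.Agent.T9h39.PZ.Spec

/-!
# PZ, piece (N): the number of `v` with given part sums
-/

set_option autoImplicit false

namespace Pool.Agent.T9h95.PZ

open Pool.Agent.T9h39.PZ Finset

/-- **Piece (N)** -/
theorem fib : S_Fib := by
  classical
  intro k X A _ _ _ σ hσ a
  choose s hs using hσ
  set T : (X → A) → Fin k → A := fun v i => ∑ x ∈ univ.filter (fun x => σ x = i), v x with hT
  set e : (Fin k → A) → X → A := fun t x => if x = s (σ x) then t (σ x) else 0 with he
  have hS : ∀ v b, Sums v σ b ↔ T v = b := fun v b => ⟨fun h => funext h, fun h i => congrFun h i⟩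
  have hadd : ∀ v w, T (v + w) = T v + T w := by
    intro v w
    funext i
    simp only [hT, Pi.add_apply, sum_add_distrib]
  have hsub : ∀ v w, T (v - w) = T v - T w := by
    intro v w
    funext i
    simp only [hT, Pi.sub_apply, sum_sub_distrib]
  have hTe : ∀ t, T (e t) = t := by
    intro t
    funext i
    simp only [hT, he]
    rw [sum_eq_single (s i)]
    · rw [hs, if_pos rfl]
    · intro x hx hne
      rw [mem_filter] at hx
      rw [hx.2, if_neg hne]
    · intro h
      exact absurd (mem_filter.2 ⟨mem_univ (s i), hs i⟩) h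
  have h1 : (univ.filter fun v : X → A => Sums v σ a).card * (univ : Finset (Fin k → A)).card =
      (univ : Finset (X → A)).card := by
    rw [← card_product]
    refine card_nbij' (fun p => p.1 + e p.2) (fun w => (w - e (T w - a), T w - a)) ?_ ?_ ?_ ?_
    · intro p _
      exact mem_coe.2 (mem_univ _)
    · intro w _
      rw [mem_coe, mem_product, mem_filter]
      refine ⟨⟨mem_univ _, (hS _ _).2 ?_⟩, mem_univ _⟩
      rw [hsub, hTe, sub_sub_cancel]
    · intro p hp
      rw [mem_coe, mem_product, mem_filter, hS] at hp
      have h2 : T (p.1 + e p.2) - a = p.2 := by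
        rw [hadd, hTe, hp.1.2, add_sub_cancel_left]
      show (p.1 + e p.2 - e (T (p.1 + e p.2) - a), T (p.1 + e p.2) - a) = p
      rw [h2, add_sub_cancel_right]
    · intro w _
      show w - e (T w - a) + e (T w - a) = w
      rw [sub_add_cancel]
  have h2 : (univ : Finset (Fin k → A)).card = Fintype.card A ^ k := by
    rw [card_univ, Fintype.card_fun, Fintype.card_fin]
  have h3 : (univ : Finset (X → A)).card = Fintype.card A ^ Fintype.card X := by
    rw [card_univ, Fintype.card_fun]
  rw [h2, h3] at h1
  convert h1 using 2

end Pool.Agent.T9h95.PZ
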